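import Pool.Agent.H.MP_ba78e1_pr.A

/-! Uniform Lipschitz functions on trees with leaf values in an interval need not converge locally. -/

open Filter Topology

namespace Pool.Agent.Results.MP_ba78e1_pr.NoLimit

/-- vertices of the `d`-ary tree of depth `n`: words of length at most `n` -/
def V (d n : ℕ) := {l : List (Fin d) // l.length ≤ n}

/-- the root, the empty word -/
def root (d n : ℕ) : V d n := ⟨[], n.zero_le⟩

/-- `m`-Lipschitz functions whose values at the leaves lie between `0` and `m` -/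
def T (d : ℕ) (m : ℤ) (n : ℕ) := {f : V d n → ℤ // (∀ (u v : V d n) (a : Fin d), v.1 = u.1 ++ [a] → |f u - f v| ≤ m) ∧
  ∀ u : V d n, u.1.length = n → 0 ≤ f u ∧ f u ≤ m}

theorem result : ∃ (d : ℕ) (M x : ℤ), 2 ≤ d ∧ 2 ≤ M ∧ (∀ n, Finite (T d M n) ∧ Nonempty (T d M n)) ∧
    ¬ ∃ p : ℝ, Tendsto (fun n => (Nat.card {f : T d M n // f.1 (root d n) = x} : ℝ) / Nat.card (T d M n))
      atTop (𝓝 p) :=
  ⟨2 ^ 53, 12 * 10 ^ 15, 12 * 10 ^ 15, by norm_num, by norm_num, Pool.Agent.H.MP_ba78e1_pr.main⟩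

end Pool.Agent.Results.MP_ba78e1_pr.NoLimit
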